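import Pool.Agent.H57.AR.Targets
import Pool.Agent.H44.SO.Basic
import Pool.Agent.H44.EQ.Asm
import Pool.Agent.H18.EQ.CAS

/-!
# All reducts, all arities: local injections
-/

set_option autoImplicit false
set_option linter.unusedVariables false

namespace Pool.Agent.H34.AR

open Pool.Agent.H68.BP Pool.Agent.H58.SF Pool.Agent.H53.GC Pool.Agent.H53.NR Pool.Agent.H53.GR
open Pool.Agent.H57.SO (Pal Col vt Exa Sb FBl Sbn Bh fib sigF Same Uni Can Stp)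
open Pool.Agent.H44.SO (ZS JS Loc OfT LInj sig0 str0 B2)
open Pool.Agent.H44.EQ (BinPol sel kap kap_empty kap_univ pat_cases)
open Pool.Agent.H57.EQ (Cx)
open Pool.Agent.H57.AR
open Function

theorem pf_INLR (hJEXR : T_JEXR) (hJNER : T_JNER) (hTWOR : T_TWOR) (hSEPR : T_SEPR)
    (hMINR : T_MINR) (hCMPR : T_CMPR) (hCONR : T_CONR) (hLTRR : T_LTRR) : T_INLR := by
  intro σ ρ V S X _ P 𝔸 𝔹 M c hs h hC s
  classical
  by_contra hI
  have hCAS := Pool.Agent.H18.EQ.pf_CAS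
  -- the determining positions
  choose jj hsat hj using fun κ : Fin 6 → ℕ => hJEXR σ ρ V S X P 𝔸 𝔹 M c hs h hC.can s κ
  have hone : ∀ κ : Fin 6 → ℕ, ∀ l ∈ jj κ, ∀ l' ∈ jj κ, κ l = κ l' := by
    intro κ l hl l' hl'
    by_contra hne
    exact hI (hTWOR σ ρ V S X P 𝔸 𝔹 M c hs h hC s κ (jj κ) (hj κ) l l' hl hl' hne)
  have hne : ∀ κ : Fin 6 → ℕ, (jj κ).Nonempty := fun κ =>
    hJNER σ ρ V S X P 𝔸 𝔹 M c hs h hC s κ (jj κ) (hj κ)
  -- the generic shape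
  obtain ⟨i₀, hi₀⟩ := hne (fun l => l.val + 1)
  have hJ0 : jj (fun l => l.val + 1) = {i₀} := by
    apply Set.eq_singleton_iff_unique_mem.2
    refine ⟨hi₀, fun l hl => ?_⟩
    have := hone _ l hl i₀ hi₀
    exact Fin.ext (by simpa using this)
  -- the special shape
  obtain ⟨r, hr, hS⟩ := hLTRR σ ρ V S X P 𝔸 𝔹 M c hs h hC s (fun r => jj (pat r 0 7))
    (fun r => hj _) (fun r => hsat _) (fun r => hone _) i₀
  obtain ⟨n, q, γ₀, γ₁, p₀, p₀', p₁, p₁', U, hq, hb₀, hb₁, e1, e2, e3, e4, hU, hU'⟩ :=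
    hMINR σ V S X P 𝔸 c s hI
  have hk0 : kap (pat r 0 7) ∅ = fun l => l.val + 1 := funext (kap_empty _)
  obtain ⟨s₀, s₁, hs'⟩ := hCAS V (Fin n × Fin n) γ₀ γ₁ p₀ p₀' p₁ p₁' (pat r 0 7)
    (jj (pat r 0 7)) i₀ (fun T => jj (kap (pat r 0 7) T)) (pat_cases r) hS hr
    (fun T => hsat _) (fun T => hone _) (by simp only [hk0]; exact hJ0)
    (by simp only [kap_univ]) e1 e2 e3 e4
  obtain ⟨z, hz1, hz2, hzT, hz3, hz4⟩ := hCONR σ ρ V S X P 𝔸 𝔹 M c hs (Fin n × Fin n) γ₀ γ₁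
    (pat r 0 7) (jj (pat r 0 7)) s₀ s₁ (pat_cases r) hS
  have hLoc : ∀ l, Loc P 𝔸 c q (fun p => sel (jj (pat r 0 7)) γ₀ γ₁ l p) := by
    intro l
    by_cases hl : l ∈ jj (pat r 0 7)
    · simpa [sel, hl] using hb₀
    · simpa [sel, hl] using hb₁
  -- equal elements of two blocks come from equal values of one of the maps
  have hsame : ∀ p p' l l', z p l = z p' l' → γ₀ p = γ₀ p' ∨ γ₁ p = γ₁ p' := by
    intro p p' l l' he
    obtain ⟨h2, h3, -⟩ := (hz4 p p' l l').1 he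
    by_cases hl : l ∈ jj (pat r 0 7)
    · have hl' := h2.1 hl
      simp only [sel, hl, hl', if_true] at h3
      exact Or.inl h3
    · have hl' : l' ∉ jj (pat r 0 7) := fun h' => hl (h2.2 h')
      simp only [sel, hl, hl', if_false] at h3
      exact Or.inr h3
  obtain ⟨δ, hδ, hδ'⟩ := hCMPR σ ρ V S X P 𝔸 𝔹 M c hs h hC n q
    (fun l p => sel (jj (pat r 0 7)) γ₀ γ₁ l p) z hLoc hz1 hz2 hzT (by
      intro t p p' hp hp' h1 h2 l l' he
      rcases hsame p p' l l' he with h3 | h3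
      · exact hb₀.sep p.1 p.2 p'.1 p'.2 (hp.2.trans hp.1.symm) (hp'.1.trans hp.1.symm)
          (hp'.2.trans hp.1.symm) h1 h2 h3
      · exact hb₁.sep p.1 p.2 p'.1 p'.2 (hp.2.trans hp.1.symm) (hp'.1.trans hp.1.symm)
          (hp'.2.trans hp.1.symm) h1 h2 h3)
  obtain ⟨u, hu, hdu⟩ := hU δ hδ
  obtain ⟨s', hnone⟩ := (hδ' u.1 u.2).1 hdu
  -- the types of the elements of the blocks
  have htyp : ∀ p, OfT P c q s p → ∀ l, c (sel (jj (pat r 0 7)) γ₀ γ₁ l p)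
      (sel (jj (pat r 0 7)) γ₀ γ₁ l p) = Sum.inl s := by
    intro p hp l
    have h1 := (hLoc l).typ p.1 p.2 (hp.1.trans hp.2.symm)
    exact (Pool.Agent.H44.SO.Col.vt_iff hs.lnk.col).1 (h1.trans hp.1)
  -- the pairs which are treated by the determining positions
  have key : ∀ u ∈ ({(p₀, p₀'), (p₁, p₁')} : Set ((Fin n × Fin n) × (Fin n × Fin n))),
      OfT P c q s u.1 → OfT P c q s u.2 → ∀ s', h (z u.1) (z u.2) ≠ Sum.inl s' := by
    intro u hu hu1 hu2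
    refine hSEPR σ ρ V S X P 𝔸 𝔹 M c hs h hC s _ _ _ _ (hj _) (hj _) (hsat _) (hsat _) (z u.1)
      (z u.2) (hz3 u.1 s (htyp u.1 hu1)) (hz3 u.2 s (htyp u.2 hu2)) (hzT u.1 u.2) ?_
    intro l hl l' hl' he
    exact hs' u hu l hl l' hl' ((hz4 u.1 u.2 l l').1 he)
  obtain ⟨hu1, hu2, hu3⟩ := hU' u hu
  rcases hu3 with h1 | h1 | h1
  · exact key u (by simp [h1]) hu1 hu2 s' hnone
  · exact key u (by simp [h1]) hu1 hu2 s' hnone
  · have hF : ∀ p, OfT P c q s p → FBl P c s (z p) := by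
      intro p hp
      have h2 : ∀ l, c (z p l) (z p l) = Sum.inl s := by
        intro l
        refine ((hs.lnk.eq _ _ (sel (jj (pat r 0 7)) γ₀ γ₁ l p)
          (sel (jj (pat r 0 7)) γ₀ γ₁ l p)).2 ⟨by simp, fun i f => ?_⟩).trans (htyp p hp l)
        have h3 : pull 𝔹 (fun p => z p l) = pull 𝔹 (fun p => sel (jj (pat r 0 7)) γ₀ γ₁ l p) :=
          congrArg Prod.snd (hz1 l)
        have h4 : 𝔹 i (fun _ => z p l) = 𝔹 i (fun _ => sel (jj (pat r 0 7)) γ₀ γ₁ l p) :=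
          congrFun (congrFun h3 i) (fun _ => p)
        simp only [ite_self]
        exact iff_of_eq h4
      refine ⟨h2, fun l l' hll => ?_⟩
      rw [hz2 p l l' hll, (Pool.Agent.H44.SO.Col.vt_iff hs.lnk.col).2 (h2 l), (Pool.Agent.H44.SO.Col.vt_iff hs.lnk.col).2 (h2 l')]
    refine hC.ncol s (z u.1) (z u.2) (hF u.1 hu1) (hF u.2 hu2) (hzT u.1 u.2)
      (fun l l' he => ?_) s' hnone
    rcases hsame u.1 u.2 l l' he with h2 | h2
    · exact h1.1 h2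
    · exact h1.2 h2

end Pool.Agent.H34.AR
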